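import Pool.Agent.N20.AE.Stm3

/-! Permutations whose powers have equally many fixed points are isomorphic (project AE). -/

set_option autoImplicit false

namespace Pool.Agent.N756.AE

open Equiv Equiv.Perm Finset

/-- the sum of the elements of `A` which divide `k` -/
def divSum (A : Multiset ℕ) (k : ℕ) : ℕ := (A.map fun n => if n ∣ k then n else 0).sum

/-- the sum of the elements of `A` which do not divide `k` -/
def ndivSum (A : Multiset ℕ) (k : ℕ) : ℕ := (A.map fun n => if n ∣ k then 0 else n).sum

theorem divSum_add (A : Multiset ℕ) (k : ℕ) : divSum A k + ndivSum A k = A.sum := by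
  unfold divSum ndivSum
  rw [← Multiset.sum_map_add]
  conv_rhs => rw [← Multiset.map_id A]
  congr 1
  refine Multiset.map_congr rfl fun n _ => ?_
  split_ifs <;> simp

theorem ndivSum_one (A : Multiset ℕ) (hA : ∀ n ∈ A, 2 ≤ n) : ndivSum A 1 = A.sum := by
  unfold ndivSum
  conv_rhs => rw [← Multiset.map_id A]
  congr 1
  refine Multiset.map_congr rfl fun n hn => ?_
  rw [if_neg, id]
  intro h
  have := hA n hn
  have := Nat.le_of_dvd one_pos h
  omega

theorem divSum_eq (A : Multiset ℕ) (k : ℕ) (hk : k ≠ 0) :
    divSum A k = ∑ d ∈ k.divisors, d * A.count d := by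
  unfold divSum
  induction A using Multiset.induction_on with
  | empty => simp
  | cons n A ih =>
    rw [Multiset.map_cons, Multiset.sum_cons, ih]
    simp only [Multiset.count_cons, mul_add, Finset.sum_add_distrib]
    rw [add_comm]
    congr 1
    simp only [mul_ite, mul_one, mul_zero]
    rw [Finset.sum_ite_eq' k.divisors n fun d => d]
    simp [Nat.mem_divisors, hk]

theorem multiset_eq (A B : Multiset ℕ) (hA : ∀ n ∈ A, 2 ≤ n) (hB : ∀ n ∈ B, 2 ≤ n)
    (h : ∀ k, ndivSum A k = ndivSum B k) : A = B := by
  have h0 : A.sum = B.sum := by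
    rw [← ndivSum_one A hA, ← ndivSum_one B hB, h]
  have h1 : ∀ k, divSum A k = divSum B k := by
    intro k
    have e1 := divSum_add A k
    have e2 := divSum_add B k
    have e3 := h k
    omega
  ext n
  induction n using Nat.strong_induction_on with
  | _ n ih =>
    rcases Nat.eq_zero_or_pos n with rfl | hn
    · rw [Multiset.count_eq_zero_of_notMem, Multiset.count_eq_zero_of_notMem]
      · intro h; have := hB 0 h; omega
      · intro h; have := hA 0 h; omega
    · have h2 := h1 n
      rw [divSum_eq A n hn.ne', divSum_eq B n hn.ne', ← Nat.cons_self_properDivisors hn.ne',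
        Finset.sum_cons, Finset.sum_cons] at h2
      have h3 : ∑ d ∈ n.properDivisors, d * A.count d = ∑ d ∈ n.properDivisors, d * B.count d :=
        Finset.sum_congr rfl fun d hd => by rw [ih d (Nat.mem_properDivisors.1 hd).2]
      rw [h3] at h2
      exact Nat.eq_of_mul_eq_mul_left hn (Nat.add_right_cancel h2)

theorem card_support_pow {X : Type} [Fintype X] [DecidableEq X] (f : Perm X) (k : ℕ) :
    (f ^ k).support.card = ndivSum f.cycleType k := by
  induction f using Equiv.Perm.cycle_induction_on with
  | base_one => simp [ndivSum]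
  | base_cycles σ hσ =>
    unfold ndivSum
    rw [hσ.cycleType, Multiset.map_singleton, Multiset.sum_singleton]
    split_ifs with h
    · rw [← hσ.orderOf] at h
      rw [orderOf_dvd_iff_pow_eq_one.1 h, support_one, Finset.card_empty]
    · rw [← hσ.orderOf] at h
      rw [hσ.support_pow_eq_iff.2 h]
  | induction_disjoint σ τ hd hc hσ hτ =>
    rw [hd.commute.mul_pow, (hd.pow_disjoint_pow k k).card_support_mul, hσ, hτ, hd.cycleType_mul]
    unfold ndivSum
    rw [Multiset.map_add, Multiset.sum_add]

theorem card_fix {X : Type} [Fintype X] [DecidableEq X] (f : Perm X) :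
    Nat.card {x : X // f x = x} + f.support.card = Fintype.card X := by
  rw [Nat.card_eq_fintype_card, Fintype.card_subtype]
  have : f.support = Finset.univ.filter fun x => ¬ f x = x := by
    ext x; simp
  rw [this, Finset.card_filter_add_card_filter_not, Finset.card_univ]

theorem conj_of_card {X : Type} [Fintype X] [DecidableEq X] (f g : Perm X)
    (h : ∀ k : ℕ, Nat.card {x : X // (f ^ k) x = x} = Nat.card {x : X // (g ^ k) x = x}) :
    ∃ c : Perm X, ∀ x, c (f x) = g (c x) := by
  have h1 : f.cycleType = g.cycleType := by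
    refine multiset_eq _ _ (fun n hn => two_le_of_mem_cycleType hn)
      (fun n hn => two_le_of_mem_cycleType hn) fun k => ?_
    rw [← card_support_pow, ← card_support_pow]
    have e1 := card_fix (f ^ k)
    have e2 := card_fix (g ^ k)
    have e3 := h k
    omega
  obtain ⟨c, hc⟩ := isConj_iff.1 (isConj_iff_cycleType_eq.2 h1)
  refine ⟨c, fun x => ?_⟩
  have := congrArg (fun p : Perm X => p (c x)) hc
  simpa using this

theorem perm : Pool.Agent.N20.AE.S_PERM := by
  classical
  intro X Y _ _ f g h
  have := Fintype.ofFinite X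
  have := Fintype.ofFinite Y
  have h0 : Nat.card X = Nat.card Y := by
    have e1 : Nat.card {x : X // (f ^ 0) x = x} = Nat.card X :=
      Nat.card_congr (Equiv.subtypeUnivEquiv fun _ => rfl)
    have e2 : Nat.card {y : Y // (g ^ 0) y = y} = Nat.card Y :=
      Nat.card_congr (Equiv.subtypeUnivEquiv fun _ => rfl)
    rw [← e1, ← e2, h 0]
  obtain ⟨e⟩ : Nonempty (X ≃ Y) := by
    rw [Nat.card_eq_fintype_card, Nat.card_eq_fintype_card] at h0
    exact Fintype.card_eq.1 h0
  have hk : ∀ (k : ℕ) (x : X), e (((e.symm.permCongr g) ^ k) x) = (g ^ k) (e x) := by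
    intro k
    induction k with
    | zero => intro x; simp
    | succ k ih =>
      intro x
      rw [pow_succ, pow_succ, Equiv.Perm.mul_apply, Equiv.Perm.mul_apply, ih]
      simp
  obtain ⟨c, hc⟩ := conj_of_card f (e.symm.permCongr g) (fun k => by
    rw [h k]
    refine Nat.card_congr (Equiv.subtypeEquiv e.symm fun y => ?_)
    rw [← e.apply_eq_iff_eq, hk, e.apply_symm_apply])
  refine ⟨c.trans e, fun x => ?_⟩
  simp [hc]

end Pool.Agent.N756.AE
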