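import Pool.Agent.N988.EC.Stm
import Pool.Agent.N988.EZ.Main

/-! Project EC, BAD: unstable bonds are rare. -/

set_option autoImplicit false

open MeasureTheory Set Filter
open scoped ENNReal Topology
open Pool.Agent.N988.EA Pool.Agent.N988.EZ Pool.Agent.N988.EC

namespace Pool.Agent.N756.EC

theorem eo_congr {b : ℕ} (p p' : ℕ → Fin b × Bool) (n : ℕ) (h : ∀ k < n, p k = p' k) :
    eo p n = eo p' n := by
  induction n with
  | zero => rfl
  | succ n ih =>
    show ((p n).1, (p n).2, eo p n) = ((p' n).1, (p' n).2, eo p' n)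
    rw [h n (Nat.lt_succ_self n), ih fun k hk => h k (Nat.lt_succ_of_lt hk)]

theorem eo_surj {b : ℕ} (hb : 2 ≤ b) (n : ℕ) : ∀ e : Edge b n, ∃ p : ℕ → Fin b × Bool,
    eo p n = e := by
  induction n with
  | zero => exact fun e => ⟨fun _ => (⟨0, by omega⟩, false), rfl⟩
  | succ n ih =>
    intro e
    obtain ⟨i, h, e'⟩ := e
    obtain ⟨p, hp⟩ := ih e'
    refine ⟨fun k => if k = n then (i, h) else p k, ?_⟩
    have h1 : eo (fun k => if k = n then (i, h) else p k) n = eo p n :=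
      eo_congr _ _ n fun k hk => if_neg hk.ne
    show (((fun k => if k = n then (i, h) else p k) n).1,
      ((fun k => if k = n then (i, h) else p k) n).2,
      eo (fun k => if k = n then (i, h) else p k) n) = _
    rw [h1, hp]
    simp

theorem isOpen_stab {ι : Type} [Fintype ι] (D : (ι → ℝ) → ℝ → Prop) :
    IsOpen {J : ι → ℝ | Stab D J} := by
  rw [Metric.isOpen_iff]
  rintro J ⟨c, δ, hδ, h⟩
  refine ⟨δ / 2, by positivity, fun J₁ hJ₁ => ?_⟩
  refine ⟨c, δ / 2, by positivity, fun J' hJ' => h J' fun a => ?_⟩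
  have h1 : |J₁ a - J a| < δ / 2 := by
    have h2 : dist (J₁ a) (J a) ≤ dist J₁ J := dist_le_pi_dist _ _ a
    rw [Real.dist_eq] at h2
    exact lt_of_le_of_lt h2 hJ₁
  have h3 := hJ' a
  have h4 : |J' a - J a| ≤ |J' a - J₁ a| + |J₁ a - J a| := abs_sub_le _ _ _
  linarith

theorem bad_core (hAT : S_AT) (hM : S_MARG) (h1 : S_UNI) (h2 : S_LOC) : S_BAD := by
  intro b hb μ _ ha hs ε hε
  obtain ⟨r, hr0, hr1, hr⟩ := h1 b hb
  obtain ⟨j, hj⟩ : ∃ j : ℕ, ENNReal.ofReal (r ^ j) < ε := by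
    have h3 : Tendsto (fun j : ℕ => ENNReal.ofReal (r ^ j)) atTop (𝓝 (ENNReal.ofReal 0)) :=
      ENNReal.tendsto_ofReal (tendsto_pow_atTop_nhds_zero_of_lt_one hr0 hr1)
    rw [ENNReal.ofReal_zero] at h3
    exact (h3.eventually_lt_const hε).exists
  refine ⟨j + 1, fun e => ?_⟩
  obtain ⟨p, rfl⟩ := eo_surj hb (j + 1) e
  have e1 : ∀ᵐ J ∂(Measure.infinitePi fun _ : EdgeInf b p => μ), ∀ n, UM (cpl p J n) := by
    rw [ae_all_iff]
    intro n
    obtain ⟨m1, m2⟩ := hM μ b p n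
    have h4 := (hAT b (by omega) μ ha n).2.2
    rw [← m2] at h4
    exact ae_of_ae_map m1.aemeasurable h4
  obtain ⟨m1, m2⟩ := hM μ b p (j + 1)
  have hmeas : MeasurableSet {J : Edge b (j + 1) → ℝ | ¬ Stab (Dec (eo p (j + 1))) J} :=
    (isOpen_stab _).measurableSet.compl
  have e2 : iid μ b (j + 1) = (Measure.infinitePi fun _ : EdgeInf b p => μ).map
      (fun J => cpl p J (j + 1)) := by
    rw [m2]; rfl
  rw [e2, Measure.map_apply m1 hmeas]
  refine le_trans ?_ hj.le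
  refine le_trans (measure_mono_ae ?_) (hr μ ha hs p j)
  filter_upwards [e1] with J hJ hB
  intro m hm
  by_contra hcon
  push Not at hcon
  exact hB (h2 b p m (j + 1) J (Nat.lt_succ_of_le hm) (hJ m) hcon)

theorem t_BAD (h1 : S_UNI) (h2 : S_LOC) : S_BAD := bad_core k_AT k_MARG h1 h2

end Pool.Agent.N756.EC
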